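import Mathlib

/-!
# Chains in the Schreier graph of an action of a free group

For an action of the free group on `X` on a set `V` and a point `v` the word `f` gives a path in the
Schreier graph that starts in `v`; `chain v f` is the corresponding 1-chain.
-/

set_option autoImplicit false

namespace Pool.Agent.V1136.SchreierChain

open FreeGroup

open scoped Classical

universe u v

variable {X : Type u} {V : Type v} [MulAction (FreeGroup X) V]

/-- One step in the Schreier graph. -/
noncomputable def step (x : X) : Equiv.Perm ((V × X →₀ ℤ) × V) where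
  toFun p := (p.1 + Finsupp.single (p.2, x) 1, of x • p.2)
  invFun p := (p.1 - Finsupp.single ((of x)⁻¹ • p.2, x) 1, (of x)⁻¹ • p.2)
  left_inv p := by simp
  right_inv p := by simp

/-- The action of the free group on chains and points. -/
noncomputable def lft : FreeGroup X →* Equiv.Perm ((V × X →₀ ℤ) × V) := FreeGroup.lift step

/-- The 1-chain of the path that starts in `v` and reads the word `f`. -/
noncomputable def chain (v : V) (f : FreeGroup X) : V × X →₀ ℤ := (lft f ((0 : V × X →₀ ℤ), v)).1

theorem lft_apply (f : FreeGroup X) (e : V × X →₀ ℤ) (v : V) :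
    lft f (e, v) = (e + chain v f, f • v) := by
  induction f using FreeGroup.induction_on generalizing e v with
  | C1 => simp [chain, lft]
  | of x => simp [chain, lft, step]
  | inv_of x _ => simp [chain, lft, step, Equiv.Perm.inv_def, sub_eq_add_neg]
  | mul f g hf hg =>
    have h1 : ∀ e : V × X →₀ ℤ, lft (f * g) (e, v) =
        (e + chain v g + chain (g • v) f, f • g • v) := by
      intro e
      rw [_root_.map_mul, Equiv.Perm.mul_apply, hg, hf]
    have h2 : chain v (f * g) = chain v g + chain (g • v) f := by
      unfold chain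
      rw [h1]
      simp [chain]
    rw [h1, h2, mul_smul, add_assoc]

theorem chain_one (v : V) : chain v (1 : FreeGroup X) = 0 := by
  simp [chain]

theorem chain_mul (v : V) (f g : FreeGroup X) :
    chain v (f * g) = chain v g + chain (g • v) f := by
  unfold chain
  rw [_root_.map_mul, Equiv.Perm.mul_apply, lft_apply g, lft_apply f]
  simp [chain]

theorem chain_inv (v : V) (f : FreeGroup X) : chain v f⁻¹ = - chain (f⁻¹ • v) f := by
  have h := chain_mul v f f⁻¹
  rw [mul_inv_cancel, chain_one] at h
  exact eq_neg_of_add_eq_zero_left h.symm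

theorem chain_of (v : V) (x : X) : chain v (of x) = Finsupp.single (v, x) 1 := by
  simp [chain, lft, step]

theorem chain_of_inv (v : V) (x : X) :
    chain v (of x)⁻¹ = - Finsupp.single ((of x)⁻¹ • v, x) 1 := by
  rw [chain_inv, chain_of]

theorem chain_pow (v : V) (f : FreeGroup X) (k : ℕ) :
    chain v (f ^ k) = ∑ i ∈ Finset.range k, chain (f ^ i • v) f := by
  induction k with
  | zero => simp [chain_one]
  | succ k ih => rw [pow_succ', chain_mul, ih, Finset.sum_range_succ]

/-- Only finitely many starting points give a path through a given edge. -/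
theorem finite_chain (f : FreeGroup X) (e : V × X) : {w : V | chain w f e ≠ 0}.Finite := by
  induction f using FreeGroup.induction_on with
  | C1 => simp [chain_one]
  | of x =>
    refine (Set.finite_singleton e.1).subset fun w hw => ?_
    rw [Set.mem_setOf_eq, chain_of] at hw
    by_contra hne
    apply hw
    rw [Finsupp.single_apply, if_neg]
    rintro rfl
    exact hne rfl
  | inv_of x _ =>
    refine (Set.finite_singleton (of x • e.1)).subset fun w hw => ?_
    rw [Set.mem_setOf_eq, chain_of_inv] at hw
    by_contra hne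
    apply hw
    rw [Finsupp.neg_apply, Finsupp.single_apply, if_neg, neg_zero]
    rintro rfl
    apply hne
    simp
  | mul f g hf hg =>
    refine (hg.union (hf.preimage (MulAction.injective g).injOn)).subset fun w hw => ?_
    rw [Set.mem_setOf_eq, chain_mul, Finsupp.add_apply] at hw
    by_contra hne
    rw [Set.mem_union, not_or] at hne
    apply hw
    have h1 : chain w g e = 0 := not_not.1 hne.1
    have h2 : chain (g • w) f e = 0 := not_not.1 hne.2
    rw [h1, h2, add_zero]

theorem mk_cons (a : X × Bool) (M : List (X × Bool)) : mk (a :: M) = mk [a] * mk M := rfl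

theorem mk_true (x : X) : mk [(x, true)] = of x := rfl

theorem mk_false (x : X) : mk [(x, false)] = (of x)⁻¹ := rfl

theorem exists_of_neg (w : V) (M : List (X × Bool)) (u : V) (x : X)
    (h : chain w (mk M) (u, x) < 0) :
    ∃ p q, M = p ++ (x, false) :: q ∧ mk q • w = of x • u := by
  induction M with
  | nil =>
    rw [← one_eq_mk, chain_one] at h
    simp at h
  | cons a M ih =>
    rw [mk_cons, chain_mul, Finsupp.add_apply] at h
    by_cases h1 : chain w (mk M) (u, x) < 0
    · obtain ⟨p, q, rfl, h2⟩ := ih h1
      exact ⟨a :: p, q, rfl, h2⟩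
    · have h2 : chain (mk M • w) (mk [a]) (u, x) < 0 := by omega
      obtain ⟨z, b⟩ := a
      cases b with
      | true =>
        rw [mk_true, chain_of, Finsupp.single_apply] at h2
        split_ifs at h2 <;> omega
      | false =>
        rw [mk_false, chain_of_inv, Finsupp.neg_apply, Finsupp.single_apply] at h2
        split_ifs at h2 with h3
        · rw [Prod.mk.injEq] at h3
          obtain ⟨h3, rfl⟩ := h3
          refine ⟨[], M, rfl, ?_⟩
          rw [← h3, smul_inv_smul]
        · simp at h2

theorem exists_of_pos (w : V) (M : List (X × Bool)) (u : V) (x : X)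
    (h : 0 < chain w (mk M) (u, x)) :
    ∃ p q, M = p ++ (x, true) :: q ∧ mk q • w = u := by
  induction M with
  | nil =>
    rw [← one_eq_mk, chain_one] at h
    simp at h
  | cons a M ih =>
    rw [mk_cons, chain_mul, Finsupp.add_apply] at h
    by_cases h1 : 0 < chain w (mk M) (u, x)
    · obtain ⟨p, q, rfl, h2⟩ := ih h1
      exact ⟨a :: p, q, rfl, h2⟩
    · have h2 : 0 < chain (mk M • w) (mk [a]) (u, x) := by omega
      obtain ⟨z, b⟩ := a
      cases b with
      | false =>
        rw [mk_false, chain_of_inv, Finsupp.neg_apply, Finsupp.single_apply] at h2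
        split_ifs at h2 <;> omega
      | true =>
        rw [mk_true, chain_of, Finsupp.single_apply] at h2
        split_ifs at h2 with h3
        · rw [Prod.mk.injEq] at h3
          obtain ⟨h3, rfl⟩ := h3
          exact ⟨[], M, rfl, h3⟩
        · simp at h2

/-! ### Transitive normal subgroups whose commutators have no chains -/

variable {R : Subgroup (FreeGroup X)}

/-- The hypotheses of this section. -/
structure Good (V : Type v) [MulAction (FreeGroup X) V] (R : Subgroup (FreeGroup X)) : Prop where
  normal : R.Normal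
  trans : ∀ v w : V, ∃ r ∈ R, r • v = w
  fix : ∀ κ ∈ ⁅R, R⁆, ∀ v : V, κ • v = v
  zero : ∀ κ ∈ ⁅R, R⁆, ∀ v : V, chain v κ = 0

/-- If `n ∈ R` fixes one point then it fixes all. -/
theorem Good.fix_all (h : Good V R) {n : FreeGroup X} (hn : n ∈ R) {v : V} (hv : n • v = v)
    (w : V) : n • w = w := by
  obtain ⟨r, hr, rfl⟩ := h.trans v w
  have h1 : n * r = r * (n * (n⁻¹ * r⁻¹ * n * r)) := by group
  have h2 : n⁻¹ * r⁻¹ * n * r ∈ ⁅R, R⁆ := by
    have := Subgroup.commutator_mem_commutator (inv_mem hn) (inv_mem hr)
    rwa [commutatorElement_def, inv_inv, inv_inv] at this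
  rw [← mul_smul, h1, mul_smul, mul_smul, h.fix _ h2, hv]

theorem Good.chain_eq (h : Good V R) {n : FreeGroup X} (hn : n ∈ R) {v : V} (hv : n • v = v)
    (w w' : V) : chain w n = chain w' n := by
  obtain ⟨r, hr, rfl⟩ := h.trans w w'
  have h1 : n * r = r * (n * (n⁻¹ * r⁻¹ * n * r)) := by group
  have h2 : n⁻¹ * r⁻¹ * n * r ∈ ⁅R, R⁆ := by
    have := Subgroup.commutator_mem_commutator (inv_mem hn) (inv_mem hr)
    rwa [commutatorElement_def, inv_inv, inv_inv] at this
  have h3 := congrArg (chain w) h1
  rw [chain_mul, chain_mul, chain_mul, h.zero _ h2, h.fix _ h2, zero_add, mul_smul, h.fix _ h2,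
    h.fix_all hn hv, add_comm, add_right_cancel_iff] at h3
  exact h3.symm

theorem Good.mem_comm (h : Good V R) (m : FreeGroup X) {r : FreeGroup X} (hr : r ∈ R) :
    m⁻¹ * r⁻¹ * m * r ∈ R :=
  mul_mem (by simpa using h.normal.conj_mem _ (inv_mem hr) m⁻¹) hr

/-- For infinite `V` the elements of `R` with a fixed point have no chains. -/
theorem Good.chain_zero [Infinite V] (h : Good V R) {n : FreeGroup X} (hn : n ∈ R) {v : V}
    (hv : n • v = v) (w : V) : chain w n = 0 := by
  ext e
  by_contra hne
  refine Set.infinite_univ ((finite_chain n e).subset fun w' _ => ?_)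
  rw [Set.mem_setOf_eq, h.chain_eq hn hv w' w]
  exact hne

theorem Good.chain_eq' [Infinite V] (h : Good V R) {m : FreeGroup X} {w w' : V} (hw : m • w = w)
    (hw' : m • w' = w') : chain w m = chain w' m := by
  obtain ⟨r, hr, rfl⟩ := h.trans w w'
  have h1 : m * r = r * (m * (m⁻¹ * r⁻¹ * m * r)) := by group
  have h2 := h.mem_comm m hr
  have h4 : (m⁻¹ * r⁻¹ * m * r) • w = w := by
    rw [mul_smul, mul_smul, mul_smul, hw', inv_smul_smul, inv_smul_eq_iff, hw]
  have h3 := congrArg (chain w) h1
  rw [chain_mul, chain_mul, chain_mul, h.chain_zero h2 h4, h4, zero_add, mul_smul, h4, hw,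
    add_comm, add_right_cancel_iff] at h3
  exact h3.symm

theorem Good.chain_zero' [Infinite V] (h : Good V R) {m : FreeGroup X}
    (hm : {w : V | m • w = w}.Infinite) {w : V} (hw : m • w = w) : chain w m = 0 := by
  ext e
  by_contra hne
  refine hm ((finite_chain m e).subset fun w' hw' => ?_)
  rw [Set.mem_setOf_eq, h.chain_eq' hw' hw]
  exact hne

/-- For infinite `V` nontrivial elements have only finitely many fixed points. -/
theorem Good.finite_fix [Infinite V] (h : Good V R) (k : ℕ) : ∀ M : List (X × Bool),
    M.length ≤ k → FreeGroup.mk M ≠ 1 → {w : V | FreeGroup.mk M • w = w}.Finite := by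
  induction k with
  | zero =>
    intro M hM hne
    have : M = [] := List.length_eq_zero_iff.1 (by omega)
    subst this
    exact absurd one_eq_mk.symm hne
  | succ k ih =>
    intro M hM hne
    by_contra hinf
    cases M with
    | nil => exact absurd one_eq_mk.symm hne
    | cons a L =>
      obtain ⟨x, b⟩ := a
      rw [List.length_cons] at hM
      have key : ∀ w : V, FreeGroup.mk ((x, b) :: L) • w = w → ∃ p q, L = p ++ (x, !b) :: q ∧
          FreeGroup.mk q • w = w := by
        intro w hw
        have h1 := h.chain_zero' hinf hw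
        rw [mk_cons, chain_mul] at h1
        rw [mk_cons, mul_smul] at hw
        cases b with
        | true =>
          rw [mk_true] at h1 hw
          have h2 := DFunLike.congr_fun h1 (FreeGroup.mk L • w, x)
          rw [chain_of, Finsupp.add_apply, Finsupp.single_apply, if_pos rfl,
            Finsupp.zero_apply] at h2
          obtain ⟨p, q, h3, h4⟩ := exists_of_neg w L (FreeGroup.mk L • w) x (by omega)
          exact ⟨p, q, h3, h4.trans hw⟩
        | false =>
          rw [mk_false] at h1 hw
          have h2 := DFunLike.congr_fun h1 (w, x)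
          rw [chain_of_inv, hw, Finsupp.add_apply, Finsupp.neg_apply, Finsupp.single_apply,
            if_pos rfl, Finsupp.zero_apply] at h2
          exact exists_of_pos w L w x (by omega)
      -- pigeonhole
      have h5 : ∃ q ∈ L.tails, {w : V | FreeGroup.mk ((x, b) :: L) • w = w ∧ FreeGroup.mk q • w = w ∧
          ∃ p, L = p ++ (x, !b) :: q}.Infinite := by
        by_contra hcon
        push Not at hcon
        apply hinf
        have h6 : (⋃ q ∈ {q | q ∈ L.tails}, {w : V | FreeGroup.mk ((x, b) :: L) • w = w ∧ FreeGroup.mk q • w = w ∧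
            ∃ p, L = p ++ (x, !b) :: q}).Finite :=
          Set.Finite.biUnion (List.finite_toSet _) fun q hq => hcon q hq
        refine h6.subset fun w hw => ?_
        obtain ⟨p, q, h7, h8⟩ := key w hw
        rw [Set.mem_iUnion₂]
        refine ⟨q, ?_, hw, h8, p, h7⟩
        rw [Set.mem_setOf_eq, List.mem_tails, h7]
        exact (List.suffix_cons _ _).trans (List.suffix_append _ _)
      obtain ⟨q, -, hq⟩ := h5
      obtain ⟨w₀, -, -, p, hp⟩ := hq.nonempty
      have hlen := congrArg List.length hp
      rw [List.length_append, List.length_cons] at hlen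
      by_cases hq1 : FreeGroup.mk q = 1
      · -- conjugate of a shorter element
        have h6 : FreeGroup.mk ((x, b) :: L) = FreeGroup.mk [(x, b)] * FreeGroup.mk p * (FreeGroup.mk [(x, b)])⁻¹ := by
          rw [mk_cons, hp, ← mul_mk, mk_cons (x, !b) q, hq1, mul_one, inv_mk, ← mul_assoc]
          rfl
        have h7 : FreeGroup.mk p ≠ 1 := by
          intro h7
          rw [h7, mul_one, mul_inv_cancel] at h6
          exact hne h6
        refine hinf (((ih p (by omega) h7).image (fun w => FreeGroup.mk [(x, b)] • w)).subset fun w hw => ?_)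
        refine ⟨(FreeGroup.mk [(x, b)])⁻¹ • w, ?_, smul_inv_smul _ _⟩
        rw [Set.mem_setOf_eq, h6, mul_smul, mul_smul] at hw
        rw [Set.mem_setOf_eq, eq_inv_smul_iff, hw]
      · exact hq ((ih q (by omega) hq1).subset fun w hw => hw.2.1)

theorem Good.finite (h : Good V R) (hR : ⁅R, R⁆ ≠ ⊥) : Finite V := by
  by_contra hinf
  haveI : Infinite V := not_finite_iff_infinite.1 hinf
  obtain ⟨κ, hκ, hne⟩ := (Subgroup.bot_or_exists_ne_one _).resolve_left hR
  obtain ⟨M, rfl⟩ : ∃ M, FreeGroup.mk M = κ := Quot.exists_rep κ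
  refine Set.infinite_univ ((h.finite_fix M.length M le_rfl hne).subset fun w _ => ?_)
  exact h.fix _ hκ w

/-! ### Finite `V` -/

theorem exists_pow_trivial [Finite V] (m : FreeGroup X) : ∃ k : ℕ, 0 < k ∧
    ∀ w : V, m ^ k • w = w := by
  obtain ⟨k, hk, h⟩ := isOfFinOrder_iff_pow_eq_one.1
    (isOfFinOrder_of_finite (MulAction.toPermHom (FreeGroup X) V m))
  refine ⟨k, hk, fun w => ?_⟩
  rw [← _root_.map_pow] at h
  exact DFunLike.congr_fun h w

theorem Good.chain_const [Finite V] (h : Good V R) {m : FreeGroup X} (hm : ∀ w : V, m • w = w)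
    (w w' : V) : chain w m = chain w' m := by
  obtain ⟨r, hr, rfl⟩ := h.trans w w'
  have h2 := h.mem_comm m hr
  have h4 : ∀ u : V, (m⁻¹ * r⁻¹ * m * r) • u = u := by
    intro u
    rw [mul_smul, mul_smul, mul_smul, hm, inv_smul_smul, inv_smul_eq_iff, hm]
  have h1 : ∀ u : V, chain (r • u) m = chain u m + chain w (m⁻¹ * r⁻¹ * m * r) := by
    intro u
    have h1 : m * r = r * (m * (m⁻¹ * r⁻¹ * m * r)) := by group
    have h3 := congrArg (chain u) h1
    rw [chain_mul, chain_mul, chain_mul, h4, mul_smul, h4, hm, add_comm,
      add_right_cancel_iff] at h3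
    rw [h3, h.chain_eq h2 (h4 u) u w, add_comm]
  have h5 : ∀ (j : ℕ) (u : V), chain (r ^ j • u) m =
      chain u m + j • chain w (m⁻¹ * r⁻¹ * m * r) := by
    intro j u
    induction j with
    | zero => simp
    | succ j ih => rw [pow_succ', mul_smul, h1, ih, succ_nsmul, add_assoc]
  obtain ⟨k, hk, hk'⟩ := exists_pow_trivial (V := V) r
  have h6 := h5 k w
  rw [hk', left_eq_add] at h6
  have h7 : chain w (m⁻¹ * r⁻¹ * m * r) = 0 := by
    rcases smul_eq_zero.1 h6 with h8 | h8
    · omega
    · exact h8
  rw [h1, h7, add_zero]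

theorem Good.letter_trans [Finite V] (h : Good V R) (x : X) (w w' : V) :
    ∃ i : ℕ, of x ^ i • w' = w := by
  obtain ⟨k, hk, hk'⟩ := exists_pow_trivial (V := V) (of x)
  have h1 := h.chain_const hk' w w'
  by_contra hne
  push Not at hne
  have h2 := DFunLike.congr_fun h1 (w, x)
  rw [chain_pow, chain_pow, Finsupp.finset_sum_apply, Finsupp.finset_sum_apply,
    Finset.sum_eq_zero (s := Finset.range k) (f := fun i => (chain (of x ^ i • w') (of x)) (w, x))]
    at h2
  · have h3 : 0 < ∑ i ∈ Finset.range k, (chain (of x ^ i • w) (of x)) (w, x) := by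
      apply Finset.sum_pos'
      · intro i _
        rw [chain_of, Finsupp.single_apply]
        split_ifs <;> norm_num
      · refine ⟨0, Finset.mem_range.2 hk, ?_⟩
        rw [chain_of, Finsupp.single_apply, if_pos (by simp)]
        norm_num
    omega
  · intro i _
    rw [chain_of, Finsupp.single_apply, if_neg]
    rw [Prod.mk.injEq]
    exact fun h => hne i h.1

theorem Good.subsingleton (h : Good V R) (hR : ⁅R, R⁆ ≠ ⊥) {x y : X} (hxy : x ≠ y) :
    Subsingleton V := by
  haveI := h.finite hR
  constructor
  intro w w'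
  by_contra hne
  obtain ⟨t, ht⟩ := h.letter_trans y (of x • w) w
  set m : FreeGroup X := (of x)⁻¹ * of y ^ t with hm
  have hmw : m • w = w := by rw [hm, mul_smul, ht, inv_smul_smul]
  obtain ⟨k, hk, hk'⟩ := exists_pow_trivial (V := V) m
  have h1 := DFunLike.congr_fun (h.chain_const hk' w w') (w, x)
  have hpow : ∀ i : ℕ, m ^ i • w = w := by
    intro i
    induction i with
    | zero => simp
    | succ i ih => rw [pow_succ', mul_smul, ih, hmw]
  have hy : ∀ u : V, chain u (of y ^ t) (w, x) = 0 := by
    intro u
    rw [chain_pow, Finsupp.finset_sum_apply]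
    apply Finset.sum_eq_zero
    intro i _
    rw [chain_of, Finsupp.single_apply, if_neg]
    rw [Prod.mk.injEq]
    exact fun h => hxy h.2.symm
  have hc : ∀ u : V, chain u m (w, x) = if u = w then -1 else 0 := by
    intro u
    rw [hm, chain_mul, Finsupp.add_apply, hy, zero_add, chain_of_inv, Finsupp.neg_apply,
      ← mul_smul, ← hm, Finsupp.single_apply]
    by_cases hu : u = w
    · rw [if_pos hu, hu, hmw, if_pos rfl]
    · rw [if_neg hu, if_neg, neg_zero]
      rw [Prod.mk.injEq]
      intro h2
      apply hu
      exact MulAction.injective m (h2.1.trans hmw.symm)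
  rw [chain_pow, chain_pow, Finsupp.finset_sum_apply, Finsupp.finset_sum_apply] at h1
  rw [Finset.sum_congr rfl (fun i _ => (hc (m ^ i • w)).trans (if_pos (hpow i))),
    Finset.sum_congr rfl (fun i _ => (hc (m ^ i • w')).trans (if_neg fun h2 => hne
      (MulAction.injective (m ^ i) (h2.trans (hpow i).symm)).symm))] at h1
  simp at h1
  omega

end Pool.Agent.V1136.SchreierChain
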