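import Mathlib

/-!
# A finitely generated soluble group built from dihedral groups placed along a parabola

For a sequence `n k` of positive integers let `Γ` be the group of all families of functions
`β k : (ZMod N) × (ZMod N) → DihedralGroup (n k)`, `N = 2 ^ (k ^ 4)`, extended by the group `ℤ × ℤ`
acting by shifts. The element `u` has the reflection `sr 0` at the origin and the reflection `sr 1`
at the point `(k, k ^ 2)` in its `k`-th coordinate. We study the group `G` generated by `u` and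
the two shifts.
-/

set_option autoImplicit false

namespace Pool.Agent.V1136.Parab

open DihedralGroup

open scoped commutatorElement

/-- The moduli. -/
def Nn (k : ℕ) : ℕ := 2 ^ (k ^ 4)

instance (k : ℕ) : NeZero (Nn k) := ⟨pow_ne_zero _ two_ne_zero⟩

/-- The positions. -/
abbrev L (k : ℕ) : Type := ZMod (Nn k) × ZMod (Nn k)

/-- Reduction of positions. -/
def red (k : ℕ) : ℤ × ℤ →+ L k :=
  (Int.castAddHom (ZMod (Nn k))).prodMap (Int.castAddHom (ZMod (Nn k)))

@[simp] theorem red_apply (k : ℕ) (w : ℤ × ℤ) : red k w = ((w.1 : ZMod (Nn k)), (w.2 : ZMod (Nn k))) :=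
  rfl

variable (n : ℕ → ℕ)

/-- The base group. -/
abbrev B : Type := ∀ k, L k → DihedralGroup (n k)

/-- Shift by `w`. -/
def shiftEquiv (w : ℤ × ℤ) : B n ≃* B n where
  toFun β := fun k p => β k (p - red k w)
  invFun β := fun k p => β k (p + red k w)
  left_inv β := by funext k p; simp
  right_inv β := by funext k p; simp
  map_mul' a b := rfl

/-- The shift action. -/
def shift : Multiplicative (ℤ × ℤ) →* MulAut (B n) where
  toFun w := shiftEquiv n w.toAdd
  map_one' := by
    ext β k p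
    change β k (p - red k 0) = β k p
    rw [map_zero, sub_zero]
  map_mul' v w := by
    ext β k p
    simp only [shiftEquiv, toAdd_mul, MulAut.mul_apply, MulEquiv.coe_mk, Equiv.coe_fn_mk, map_add]
    congr 1
    abel

theorem shift_apply (w : ℤ × ℤ) (β : B n) (k : ℕ) (p : L k) :
    shift n (Multiplicative.ofAdd w) β k p = β k (p - red k w) := rfl

/-- The big group. -/
abbrev Gam : Type := B n ⋊[shift n] Multiplicative (ℤ × ℤ)

/-- The point on the parabola. -/
def pt (k : ℕ) : L k := red k ((k : ℤ), (k : ℤ) ^ 2)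

/-- The generator with two reflections in each coordinate. -/
def u : B n := fun k p => if p = 0 then sr 0 else if p = pt k then sr 1 else 1

/-- The lattice element `w`, as an element of the big group. -/
def tr (w : ℤ × ℤ) : Gam n := SemidirectProduct.inr (Multiplicative.ofAdd w)

/-- The group generated by `u` and the shifts by `(1, 0)` and `(0, 1)`. -/
def G : Subgroup (Gam n) :=
  Subgroup.closure {SemidirectProduct.inl (u n), tr n (1, 0), tr n (0, 1)}

theorem tr_mem (w : ℤ × ℤ) : tr n w ∈ G n := by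
  have h1 : tr n (1, 0) ∈ G n := Subgroup.subset_closure (by simp)
  have h2 : tr n (0, 1) ∈ G n := Subgroup.subset_closure (by simp)
  have h3 : Multiplicative.ofAdd w = Multiplicative.ofAdd ((1 : ℤ), (0 : ℤ)) ^ w.1 *
      Multiplicative.ofAdd ((0 : ℤ), (1 : ℤ)) ^ w.2 := by
    rw [← ofAdd_zsmul, ← ofAdd_zsmul, ← ofAdd_add]
    congr 1
    ext <;> simp
  unfold tr
  rw [h3, map_mul, map_zpow, map_zpow]
  exact mul_mem (zpow_mem h1 _) (zpow_mem h2 _)

theorem u_mem : (SemidirectProduct.inl (u n) : Gam n) ∈ G n := Subgroup.subset_closure (by simp)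

theorem tr_conj (w : ℤ × ℤ) (β : B n) :
    tr n w * SemidirectProduct.inl β * (tr n w)⁻¹ =
      SemidirectProduct.inl (shift n (Multiplicative.ofAdd w) β) := by
  rw [SemidirectProduct.inl_aut, map_inv]
  rfl

instance fg : Group.FG (G n) := by
  classical
  rw [Group.fg_iff_subgroup_fg]
  exact ⟨{SemidirectProduct.inl (u n), tr n (1, 0), tr n (0, 1)}, by simp [G]⟩

/-! ### Elements of the base part -/

/-- The shift of `u` by `w`. -/
def uw (w : ℤ × ℤ) : B n := shift n (Multiplicative.ofAdd w) (u n)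

theorem uw_apply (w : ℤ × ℤ) (k : ℕ) (p : L k) : uw n w k p = u n k (p - red k w) := rfl

theorem shift_uw (v w : ℤ × ℤ) : shift n (Multiplicative.ofAdd v) (uw n w) = uw n (v + w) := by
  unfold uw
  rw [ofAdd_add, map_mul]
  rfl

/-- All elements of `G` have their left coordinate in the group generated by the shifts of `u`. -/
theorem left_mem {g : Gam n} (hg : g ∈ G n) : g.left ∈ Subgroup.closure (Set.range (uw n)) := by
  have hinv : ∀ v : Multiplicative (ℤ × ℤ), ∀ β ∈ Subgroup.closure (Set.range (uw n)),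
      shift n v β ∈ Subgroup.closure (Set.range (uw n)) := by
    intro v β hβ
    have h : (Subgroup.closure (Set.range (uw n))).map (shift n v).toMonoidHom ≤
        Subgroup.closure (Set.range (uw n)) := by
      rw [MonoidHom.map_closure, Subgroup.closure_le]
      rintro _ ⟨_, ⟨w, rfl⟩, rfl⟩
      have := shift_uw n v.toAdd w
      exact Subgroup.subset_closure ⟨v.toAdd + w, this.symm⟩
    exact h (Subgroup.mem_map_of_mem _ hβ)
  refine Subgroup.closure_induction ?_ ?_ ?_ ?_ hg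
  · intro x hx
    rcases hx with rfl | rfl | rfl
    · exact Subgroup.subset_closure ⟨0, by simp [uw]⟩
    · exact one_mem _
    · exact one_mem _
  · exact one_mem _
  · intro x y _ _ hx hy
    rw [SemidirectProduct.mul_left]
    exact mul_mem hx (hinv _ _ hy)
  · intro x _ hx
    rw [SemidirectProduct.inv_left]
    exact hinv _ _ (inv_mem hx)

/-- An element of the group generated by all shifts of `u` lies in the group generated by finitely
many of them. -/
theorem exists_finset {β : B n} (hβ : β ∈ Subgroup.closure (Set.range (uw n))) :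
    ∃ W : Finset (ℤ × ℤ), β ∈ Subgroup.closure (uw n '' (W : Set (ℤ × ℤ))) := by
  classical
  refine Subgroup.closure_induction ?_ ?_ ?_ ?_ hβ
  · rintro _ ⟨w, rfl⟩
    exact ⟨{w}, Subgroup.subset_closure ⟨w, by simp, rfl⟩⟩
  · exact ⟨∅, one_mem _⟩
  · rintro x y _ _ ⟨W, hW⟩ ⟨W', hW'⟩
    refine ⟨W ∪ W', mul_mem (Subgroup.closure_mono (Set.image_mono ?_) hW)
      (Subgroup.closure_mono (Set.image_mono ?_) hW')⟩
    · simp
    · simp
  · rintro x _ ⟨W, hW⟩
    exact ⟨W, inv_mem hW⟩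

/-- The group generated by the shifts of `u` by `w + i v`, `w ∈ W`, `i ∈ ℤ`. -/
def M (W : Finset (ℤ × ℤ)) (v : ℤ × ℤ) : Subgroup (B n) :=
  Subgroup.closure {β | ∃ w ∈ W, ∃ i : ℤ, β = uw n (w + i • v)}

theorem M_shift (W : Finset (ℤ × ℤ)) (v : ℤ × ℤ) (i : ℤ) (β : B n) (hβ : β ∈ M n W v) :
    shift n (Multiplicative.ofAdd (i • v)) β ∈ M n W v := by
  have h : (M n W v).map (shift n (Multiplicative.ofAdd (i • v))).toMonoidHom ≤ M n W v := by
    unfold M
    rw [MonoidHom.map_closure, Subgroup.closure_le]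
    rintro _ ⟨_, ⟨w, hw, j, rfl⟩, rfl⟩
    refine Subgroup.subset_closure ⟨w, hw, i + j, ?_⟩
    have := shift_uw n (i • v) (w + j • v)
    refine this.trans ?_
    congr 1
    rw [add_smul]; abel
  exact h (Subgroup.mem_map_of_mem _ hβ)

/-- If the left coordinates of `x` and `x'` lie in the group generated by `uw w`, `w ∈ W`, and their
right coordinates are both `v`, then the group they generate has left coordinates in `M W v`. -/
theorem closure_left {x x' : Gam n} {v : ℤ × ℤ} (hx : x.right = Multiplicative.ofAdd v)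
    (hx' : x'.right = Multiplicative.ofAdd v) (W : Finset (ℤ × ℤ))
    (h : x.left ∈ Subgroup.closure (uw n '' (W : Set (ℤ × ℤ))))
    (h' : x'.left ∈ Subgroup.closure (uw n '' (W : Set (ℤ × ℤ)))) {g : Gam n}
    (hg : g ∈ Subgroup.closure ({x, x'} : Set (Gam n))) :
    g.left ∈ M n W v := by
  have hle : Subgroup.closure (uw n '' (W : Set (ℤ × ℤ))) ≤ M n W v := by
    rw [Subgroup.closure_le]
    rintro _ ⟨w, hw, rfl⟩
    exact Subgroup.subset_closure ⟨w, hw, 0, by simp⟩
  have key : g.left ∈ M n W v ∧ ∃ i : ℤ, g.right = Multiplicative.ofAdd (i • v) := by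
    refine Subgroup.closure_induction ?_ ?_ ?_ ?_ hg
    · intro y hy
      rcases hy with rfl | rfl
      · exact ⟨hle h, 1, by simp [hx]⟩
      · exact ⟨hle h', 1, by simp [hx']⟩
    · exact ⟨one_mem _, 0, by simp⟩
    · rintro y z _ _ ⟨hy, i, hi⟩ ⟨hz, j, hj⟩
      refine ⟨?_, i + j, ?_⟩
      · rw [SemidirectProduct.mul_left, hi]
        exact mul_mem hy (M_shift n W v i _ hz)
      · rw [SemidirectProduct.mul_right, hi, hj, add_smul, ofAdd_add]
    · rintro y _ ⟨hy, i, hi⟩
      refine ⟨?_, -i, ?_⟩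
      · rw [SemidirectProduct.inv_left, hi, ← ofAdd_neg, ← neg_smul]
        exact M_shift n W v (-i) _ (inv_mem hy)
      · rw [SemidirectProduct.inv_right, hi, ← ofAdd_neg, neg_smul]
  exact key.1

/-! ### Arithmetic of the parabola -/

theorem pow_four_lt (k : ℕ) : k ^ 4 < Nn k := Nat.lt_two_pow_self

/-- A line meets the parabola, reduced modulo `Nn k`, in its `k`-th point for finitely many `k`
only. -/
theorem finite_line (d v : ℤ × ℤ) : ∃ K : ℕ, ∀ k : ℕ, K < k → ∀ i : ℤ, pt k ≠ red k (d + i • v) := by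
  obtain ⟨d1, d2⟩ := d
  obtain ⟨v1, v2⟩ := v
  refine ⟨(|v1| + |v2| + |v2 * d1| + |v1 * d2| + |d1| + 2).toNat, fun k hk i h => ?_⟩
  have hk' : |v1| + |v2| + |v2 * d1| + |v1 * d2| + |d1| + 2 < (k : ℤ) := by
    have h0 : 0 ≤ |v1| + |v2| + |v2 * d1| + |v1 * d2| + |d1| + 2 := by positivity
    have := Int.toNat_of_nonneg h0
    omega
  have hN : ((k : ℤ)) ^ 4 < (Nn k : ℤ) := by exact_mod_cast pow_four_lt k
  rw [pt, red_apply, red_apply, Prod.mk.injEq] at h
  obtain ⟨h1, h2⟩ := h
  simp only [Prod.smul_mk, smul_eq_mul, Prod.mk_add_mk] at h1 h2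
  rw [ZMod.intCast_eq_intCast_iff_dvd_sub] at h1 h2
  have a1 := abs_nonneg v1
  have a2 := abs_nonneg v2
  have a3 := abs_nonneg (v2 * d1)
  have a4 := abs_nonneg (v1 * d2)
  have a5 := abs_nonneg d1
  have hk1 : (2 : ℤ) < k := by linarith
  have hkp : (0 : ℤ) < k := by linarith
  by_cases hv : v1 = 0 ∧ v2 = 0
  · obtain ⟨rfl, rfl⟩ := hv
    simp only [mul_zero, add_zero] at h1
    have h3 : d1 - (k : ℤ) ≠ 0 := by
      intro h
      have := le_abs_self d1
      linarith
    have h4 := Int.le_of_dvd (abs_pos.2 h3) ((dvd_abs _ _).2 h1)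
    have h5 : |d1 - (k : ℤ)| ≤ |d1| + k := by
      have := abs_sub d1 (k : ℤ)
      rwa [abs_of_pos hkp] at this
    have h6 : (k : ℤ) + k ≤ (k : ℤ) ^ 4 := by nlinarith [pow_pos hkp 2, pow_pos hkp 3]
    linarith
  · have h3 : (Nn k : ℤ) ∣ v1 * (k : ℤ) ^ 2 - v2 * k + (v2 * d1 - v1 * d2) := by
      have h4 := dvd_sub (Dvd.dvd.mul_left h1 v2) (Dvd.dvd.mul_left h2 v1)
      refine h4.trans (dvd_of_eq ?_)
      ring
    have h4 : v1 * (k : ℤ) ^ 2 - v2 * k + (v2 * d1 - v1 * d2) ≠ 0 := by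
      intro h5
      by_cases hv1 : v1 = 0
      · have hv2 : v2 ≠ 0 := fun h => hv ⟨hv1, h⟩
        subst hv1
        have h6 : v2 * ((k : ℤ) - d1) = 0 := by linarith
        rcases mul_eq_zero.1 h6 with h7 | h7
        · exact hv2 h7
        · have := le_abs_self d1
          linarith
      · have h6 : 1 ≤ |v1| := Int.one_le_abs hv1
        have h7 : |v1 * (k : ℤ) ^ 2| = |v2 * k - (v2 * d1 - v1 * d2)| := by
          congr 1; linarith
        have h8 : |v2 * k - (v2 * d1 - v1 * d2)| ≤ |v2| * k + |v2 * d1| + |v1 * d2| := by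
          calc |v2 * k - (v2 * d1 - v1 * d2)| ≤ |v2 * k| + |v2 * d1 - v1 * d2| := abs_sub _ _
            _ ≤ |v2 * k| + (|v2 * d1| + |v1 * d2|) := by gcongr; exact abs_sub _ _
            _ = |v2| * k + |v2 * d1| + |v1 * d2| := by
                rw [abs_mul, abs_of_pos hkp]; ring
        rw [abs_mul, abs_of_pos (pow_pos hkp 2)] at h7
        nlinarith
    have h5 := Int.le_of_dvd (abs_pos.2 h4) ((dvd_abs _ _).2 h3)
    have h6 : |v1 * (k : ℤ) ^ 2 - v2 * k + (v2 * d1 - v1 * d2)| ≤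
        |v1| * k ^ 2 + |v2| * k + (|v2 * d1| + |v1 * d2|) := by
      calc |v1 * (k : ℤ) ^ 2 - v2 * k + (v2 * d1 - v1 * d2)|
          ≤ |v1 * (k : ℤ) ^ 2 - v2 * k| + |v2 * d1 - v1 * d2| := abs_add_le _ _
        _ ≤ (|v1 * (k : ℤ) ^ 2| + |v2 * k|) + (|v2 * d1| + |v1 * d2|) := by
            gcongr
            · exact abs_sub _ _
            · exact abs_sub _ _
        _ = |v1| * k ^ 2 + |v2| * k + (|v2 * d1| + |v1 * d2|) := by
            rw [abs_mul, abs_mul, abs_of_pos hkp, abs_of_pos (pow_pos hkp 2)]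
    have h7 : |v1| * (k : ℤ) ^ 2 + |v2| * k + (|v2 * d1| + |v1 * d2|) ≤ (k : ℤ) ^ 4 := by
      have e1 : |v1| * (k : ℤ) ^ 2 ≤ |v1| * k ^ 3 := by
        apply mul_le_mul_of_nonneg_left _ a1
        nlinarith [pow_pos hkp 2]
      have e2 : |v2| * (k : ℤ) ≤ |v2| * k ^ 3 := by
        apply mul_le_mul_of_nonneg_left _ a2
        nlinarith [pow_pos hkp 2]
      have e3 : |v2 * d1| + |v1 * d2| ≤ (|v2 * d1| + |v1 * d2|) * (k : ℤ) ^ 3 := by
        have : (1 : ℤ) ≤ (k : ℤ) ^ 3 := by nlinarith [pow_pos hkp 2]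
        nlinarith
      have e4 : (|v1| + |v2| + (|v2 * d1| + |v1 * d2|)) * (k : ℤ) ^ 3 ≤ k * k ^ 3 := by
        apply mul_le_mul_of_nonneg_right _ (pow_pos hkp 3).le
        linarith
      calc _ ≤ |v1| * k ^ 3 + |v2| * k ^ 3 + (|v2 * d1| + |v1 * d2|) * (k : ℤ) ^ 3 := by linarith
        _ = (|v1| + |v2| + (|v2 * d1| + |v1 * d2|)) * (k : ℤ) ^ 3 := by ring
        _ ≤ k * k ^ 3 := e4
        _ = (k : ℤ) ^ 4 := by ring
    linarith

/-! ### Coordinates of exponent two -/

theorem sq_of_closure {A : Type*} [Group A] (S : Set A) (hc : ∀ x ∈ S, ∀ y ∈ S, x * y = y * x)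
    (h2 : ∀ x ∈ S, x ^ 2 = 1) : ∀ g ∈ Subgroup.closure S, g ^ 2 = 1 := by
  haveI := Subgroup.isMulCommutative_closure hc
  intro g hg
  refine Subgroup.closure_induction ?_ ?_ ?_ ?_ hg
  · exact h2
  · simp
  · intro x y hx hy h h'
    have h3 : x * y = y * x := congrArg Subtype.val
      (mul_comm' (⟨x, hx⟩ : Subgroup.closure S) ⟨y, hy⟩)
    have h4 : Commute x y := h3
    rw [h4.mul_pow, h, h', one_mul]
  · intro x _ h
    rw [inv_pow, h, inv_one]

theorem u_cases (k : ℕ) (p : L k) : u n k p = 1 ∨ (u n k p = sr 0 ∧ p = 0) ∨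
    (u n k p = sr 1 ∧ p = pt k) := by
  unfold u
  by_cases h : p = 0
  · simp [h]
  · by_cases h' : p = pt k
    · subst h'
      simp [h]
    · simp [h, h']

theorem uw_sq (w : ℤ × ℤ) (k : ℕ) (p : L k) : uw n w k p ^ 2 = 1 := by
  rw [uw_apply]
  rcases u_cases n k (p - red k w) with h | ⟨h, -⟩ | ⟨h, -⟩ <;> rw [h, pow_two] <;> simp

theorem uw_comm {w w' : ℤ × ℤ} {k : ℕ} (h1 : pt k ≠ red k (w - w')) (h2 : pt k ≠ red k (w' - w))
    (p : L k) : uw n w k p * uw n w' k p = uw n w' k p * uw n w k p := by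
  rw [uw_apply, uw_apply]
  rcases u_cases n k (p - red k w) with h | ⟨h, h0⟩ | ⟨h, h0⟩
  · rw [h, one_mul, mul_one]
  · rcases u_cases n k (p - red k w') with h' | ⟨h', h0'⟩ | ⟨h', h0'⟩
    · rw [h', one_mul, mul_one]
    · rw [h, h']
    · exfalso
      apply h1
      rw [map_sub, ← h0', sub_eq_zero.1 h0]
  · rcases u_cases n k (p - red k w') with h' | ⟨h', h0'⟩ | ⟨h', h0'⟩
    · rw [h', one_mul, mul_one]
    · exfalso
      apply h2
      rw [map_sub, ← h0, sub_eq_zero.1 h0']
    · rw [h, h']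

theorem M_sq {W : Finset (ℤ × ℤ)} {v : ℤ × ℤ} {k : ℕ}
    (hk : ∀ w ∈ W, ∀ w' ∈ W, ∀ i : ℤ, pt k ≠ red k (w - w' + i • v)) {β : B n}
    (hβ : β ∈ M n W v) (p : L k) : β k p ^ 2 = 1 := by
  let ev : B n →* DihedralGroup (n k) :=
    (Pi.evalMonoidHom (fun _ : L k => DihedralGroup (n k)) p).comp
      (Pi.evalMonoidHom (fun k => L k → DihedralGroup (n k)) k)
  have h1 : ev β ∈ (M n W v).map ev := Subgroup.mem_map_of_mem ev hβ
  unfold M at h1
  rw [MonoidHom.map_closure] at h1
  refine sq_of_closure _ ?_ ?_ _ h1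
  · rintro _ ⟨_, ⟨w, hw, i, rfl⟩, rfl⟩ _ ⟨_, ⟨w', hw', j, rfl⟩, rfl⟩
    apply uw_comm
    · have := hk w hw w' hw' (i - j)
      rwa [sub_smul, show w - w' + (i • v - j • v) = w + i • v - (w' + j • v) by abel] at this
    · have := hk w' hw' w hw (j - i)
      rwa [sub_smul, show w' - w + (j • v - i • v) = w' + j • v - (w + i • v) by abel] at this
  · rintro _ ⟨_, ⟨w, hw, i, rfl⟩, rfl⟩
    exact uw_sq n _ k p

theorem exists_bound (W : Finset (ℤ × ℤ)) (v : ℤ × ℤ) : ∃ K : ℕ, ∀ k : ℕ, K < k →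
    ∀ w ∈ W, ∀ w' ∈ W, ∀ i : ℤ, pt k ≠ red k (w - w' + i • v) := by
  choose f hf using fun d => finite_line d v
  refine ⟨(W ×ˢ W).sup fun x => f (x.1 - x.2), fun k hk w hw w' hw' i => hf (w - w') k ?_ i⟩
  refine lt_of_le_of_lt ?_ hk
  exact Finset.le_sup (f := fun x : (ℤ × ℤ) × (ℤ × ℤ) => f (x.1 - x.2)) (b := (w, w'))
    (Finset.mem_product.2 ⟨hw, hw'⟩)

/-- For all `x`, `y` in `G` there is a bound `K` such that all elements of the group generated by
`x` and `y⁻¹ x y` have their coordinates with index `> K` of exponent two. -/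
theorem exists_good {x y : Gam n} (hx : x ∈ G n) (hy : y ∈ G n) :
    ∃ K : ℕ, ∀ g ∈ Subgroup.closure ({x, y⁻¹ * x * y} : Set (Gam n)),
      ∀ k : ℕ, K < k → ∀ p, g.left k p ^ 2 = 1 := by
  classical
  have hx' : y⁻¹ * x * y ∈ G n := mul_mem (mul_mem (inv_mem hy) hx) hy
  obtain ⟨W, hW⟩ := exists_finset n (left_mem n hx)
  obtain ⟨W', hW'⟩ := exists_finset n (left_mem n hx')
  have hr : (y⁻¹ * x * y).right = x.right := by
    simp only [SemidirectProduct.mul_right, SemidirectProduct.inv_right]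
    rw [mul_comm y.right⁻¹, inv_mul_cancel_right]
  obtain ⟨K, hK⟩ := exists_bound (W ∪ W') x.right.toAdd
  refine ⟨K, fun g hg k hk p => ?_⟩
  refine M_sq n (hK k hk) ?_ p
  refine closure_left n (x := x) (x' := y⁻¹ * x * y) rfl hr (W ∪ W') ?_ ?_ hg
  · refine Subgroup.closure_mono (Set.image_mono ?_) hW
    simp
  · refine Subgroup.closure_mono (Set.image_mono ?_) hW'
    simp

/-! ### Solubility -/

theorem dihedral_derived (m : ℕ) : derivedSeries (DihedralGroup m) 2 = ⊥ := by
  let R : Subgroup (DihedralGroup m) :=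
    { carrier := {g | ∃ i, g = r i}
      mul_mem' := by
        rintro _ _ ⟨i, rfl⟩ ⟨j, rfl⟩
        exact ⟨i + j, by simp⟩
      one_mem' := ⟨0, rfl⟩
      inv_mem' := by
        rintro _ ⟨i, rfl⟩
        exact ⟨-i, by simp⟩ }
  have h1 : derivedSeries (DihedralGroup m) 1 ≤ R := by
    rw [derivedSeries_succ, derivedSeries_zero, Subgroup.commutator_le]
    intro a _ b _
    rw [commutatorElement_def]
    rcases a with i | i <;> rcases b with j | j
    · exact ⟨_, by simp [inv_r, r_mul_r]; rfl⟩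
    · exact ⟨_, by simp; rfl⟩
    · exact ⟨_, by simp; rfl⟩
    · exact ⟨_, by simp; rfl⟩
  rw [derivedSeries_succ, eq_bot_iff, Subgroup.commutator_le]
  intro a ha b hb
  obtain ⟨i, rfl⟩ := h1 ha
  obtain ⟨j, rfl⟩ := h1 hb
  rw [Subgroup.mem_bot, commutatorElement_eq_one_iff_mul_comm, r_mul_r, r_mul_r, add_comm]

instance solvable_B : Group.IsSolvable (B n) := by
  refine ⟨⟨2, ?_⟩⟩
  rw [eq_bot_iff]
  intro β hβ
  rw [Subgroup.mem_bot]
  funext k p
  let ev : B n →* DihedralGroup (n k) :=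
    (Pi.evalMonoidHom (fun _ : L k => DihedralGroup (n k)) p).comp
      (Pi.evalMonoidHom (fun k => L k → DihedralGroup (n k)) k)
  have h1 := map_derivedSeries_le_derivedSeries ev 2 (Subgroup.mem_map_of_mem ev hβ)
  rw [dihedral_derived, Subgroup.mem_bot] at h1
  exact h1

instance solvable_Gam : Group.IsSolvable (Gam n) := by
  refine Group.isSolvable_of_ker_le_range (SemidirectProduct.inl : B n →* Gam n)
    (SemidirectProduct.rightHom : Gam n →* Multiplicative (ℤ × ℤ)) ?_
  rw [SemidirectProduct.range_inl_eq_ker_rightHom]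

instance solvable_G : Group.IsSolvable (G n) := inferInstance

/-! ### Elements of the lower central series -/

/-- The iterated commutators of `u` with the shift by `(1, 0)`. -/
def zB : ℕ → B n
  | 0 => u n
  | c + 1 => zB c * (shift n (Multiplicative.ofAdd ((1 : ℤ), (0 : ℤ))) (zB c))⁻¹

theorem zB_succ_apply (c k : ℕ) (p : L k) :
    zB n (c + 1) k p = zB n c k p * (zB n c k (p - red k (1, 0)))⁻¹ := rfl

theorem zB_mem (c : ℕ) : (SemidirectProduct.inl (zB n c) : Gam n) ∈ G n := by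
  induction c with
  | zero => exact u_mem n
  | succ c ih =>
    have h : (SemidirectProduct.inl (zB n (c + 1)) : Gam n) =
        SemidirectProduct.inl (zB n c) *
          (tr n (1, 0) * SemidirectProduct.inl (zB n c) * (tr n (1, 0))⁻¹)⁻¹ := by
      rw [tr_conj, ← map_inv, ← map_mul]
      rfl
    rw [h]
    exact mul_mem ih (inv_mem (mul_mem (mul_mem (tr_mem n _) ih) (inv_mem (tr_mem n _))))

theorem zB_lower (c : ℕ) : (⟨SemidirectProduct.inl (zB n c), zB_mem n c⟩ : G n) ∈
    (⊤ : Subgroup (G n)).lowerCentralSeries c := by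
  induction c with
  | zero => exact Subgroup.mem_top _
  | succ c ih =>
    rw [Subgroup.lowerCentralSeries_succ]
    have h : (⟨SemidirectProduct.inl (zB n (c + 1)), zB_mem n (c + 1)⟩ : G n) =
        ⁅(⟨SemidirectProduct.inl (zB n c), zB_mem n c⟩ : G n), ⟨tr n (1, 0), tr_mem n _⟩⁆ := by
      apply Subtype.ext
      have h2 : (SemidirectProduct.inl (zB n (c + 1)) : Gam n) =
          SemidirectProduct.inl (zB n c) *
            (tr n (1, 0) * SemidirectProduct.inl (zB n c) * (tr n (1, 0))⁻¹)⁻¹ := by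
        rw [tr_conj, ← map_inv, ← map_mul]
        rfl
      change (SemidirectProduct.inl (zB n (c + 1)) : Gam n) =
        SemidirectProduct.inl (zB n c) * tr n (1, 0) * (SemidirectProduct.inl (zB n c))⁻¹ *
          (tr n (1, 0))⁻¹
      rw [h2]
      group
    rw [h]
    exact Subgroup.commutator_mem_commutator ih (Subgroup.mem_top _)

/-- The support of `zB c` in the `k`-th coordinate. -/
theorem zB_supp (c k : ℕ) (p : L k) (h : zB n c k p ≠ 1) :
    ∃ j : ℕ, j ≤ c ∧ (p = red k ((j : ℤ), 0) ∨ p = pt k + red k ((j : ℤ), 0)) := by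
  induction c generalizing p with
  | zero =>
    rcases u_cases n k p with h0 | ⟨-, h0⟩ | ⟨-, h0⟩
    · exact absurd h0 h
    · exact ⟨0, le_refl _, Or.inl (by rw [h0]; exact (map_zero (red k)).symm)⟩
    · exact ⟨0, le_refl _, Or.inr (by rw [h0]; simp)⟩
  | succ c ih =>
    rw [zB_succ_apply] at h
    by_cases h1 : zB n c k p = 1
    · have h2 : zB n c k (p - red k (1, 0)) ≠ 1 := fun h2 => h (by rw [h1, h2]; simp)
      obtain ⟨j, hj, h3⟩ := ih _ h2
      refine ⟨j + 1, by omega, ?_⟩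
      have e : red k (((j + 1 : ℕ) : ℤ), 0) = red k ((j : ℤ), 0) + red k (1, 0) := by
        rw [← map_add]; simp
      rcases h3 with h3 | h3
      · left
        rw [e, ← h3, sub_add_cancel]
      · right
        rw [e, ← add_assoc, ← h3, sub_add_cancel]
    · obtain ⟨j, hj, h3⟩ := ih _ h1
      exact ⟨j, by omega, h3⟩

theorem sq_ne_zero {k : ℕ} (hk : 1 ≤ k) : (((k : ℤ) ^ 2 : ℤ) : ZMod (Nn k)) ≠ 0 := by
  intro h
  have h1 : ((k ^ 2 : ℕ) : ZMod (Nn k)) = 0 := by
    rw [← h]; push_cast; ring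
  rw [ZMod.natCast_eq_zero_iff] at h1
  have h2 := Nat.le_of_dvd (by positivity) h1
  have h3 := pow_four_lt k
  have h4 : k ^ 2 ≤ k ^ 4 := Nat.pow_le_pow_right hk (by norm_num)
  omega

/-- Two small integers that agree modulo `Nn k` are equal. -/
theorem small_eq {k : ℕ} {a b : ℤ} (h : (a : ZMod (Nn k)) = b) (hab : |a - b| < Nn k) : a = b := by
  rw [ZMod.intCast_eq_intCast_iff_dvd_sub] at h
  by_contra hne
  have h1 : b - a ≠ 0 := fun h => hne (by omega)
  have h2 := Int.le_of_dvd (abs_pos.2 h1) ((dvd_abs _ _).2 h)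
  rw [abs_sub_comm] at h2
  omega

/-- Vanishing of `zB c` at the points `(a, 0)` with `a` outside `[0, c]`, not too large. -/
theorem zB_zero_line {c k : ℕ} (hk : 1 ≤ k) {a : ℤ} (ha : a < 0 ∨ (c : ℤ) < a)
    (hN : |a| + c < Nn k) : zB n c k (red k (a, 0)) = 1 := by
  by_contra h
  obtain ⟨j, hj, h1 | h1⟩ := zB_supp n c k _ h
  · rw [red_apply, red_apply, Prod.mk.injEq] at h1
    have h2 : a = (j : ℤ) := small_eq h1.1 (by
      have := abs_sub a (j : ℤ)
      rw [abs_of_nonneg (Int.natCast_nonneg j)] at this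
      omega)
    omega
  · rw [pt, ← map_add, red_apply, red_apply, Prod.mk.injEq] at h1
    have h2 := h1.2
    simp only [Prod.snd_add, add_zero, Int.cast_zero] at h2
    exact sq_ne_zero hk h2.symm

/-- Vanishing of `zB c` at the points `pt k + (a, 0)` with `a` outside `[0, c]`. -/
theorem zB_pt_line {c k : ℕ} (hk : 1 ≤ k) {a : ℤ} (ha : a < 0 ∨ (c : ℤ) < a)
    (hN : |a| + c < Nn k) : zB n c k (pt k + red k (a, 0)) = 1 := by
  by_contra h
  obtain ⟨j, hj, h1 | h1⟩ := zB_supp n c k _ h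
  · rw [pt, ← map_add, red_apply, red_apply, Prod.mk.injEq] at h1
    have h2 := h1.2
    simp only [Prod.snd_add, add_zero, Int.cast_zero] at h2
    exact sq_ne_zero hk h2
  · rw [add_right_inj, red_apply, red_apply, Prod.mk.injEq] at h1
    have h2 : a = (j : ℤ) := small_eq h1.1 (by
      have := abs_sub a (j : ℤ)
      rw [abs_of_nonneg (Int.natCast_nonneg j)] at this
      omega)
    omega

theorem zB_at_zero {c k : ℕ} (hk : 1 ≤ k) (hN : c + 1 < Nn k) : zB n c k 0 = sr 0 := by
  induction c with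
  | zero => simp [zB, u]
  | succ c ih =>
    rw [zB_succ_apply, ih (by omega)]
    have h1 : (0 : L k) - red k (1, 0) = red k (-1, 0) := by
      rw [zero_sub, ← map_neg]; simp
    rw [h1, zB_zero_line n hk (Or.inl (by norm_num)) (by simp; omega)]
    simp

theorem pt_ne_zero {k : ℕ} (hk : 1 ≤ k) : pt k ≠ 0 := by
  intro h
  have := congrArg Prod.snd h
  exact sq_ne_zero hk this

theorem zB_at_pt {c k : ℕ} (hk : 1 ≤ k) (hN : c + 1 < Nn k) : zB n c k (pt k) = sr 1 := by
  induction c with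
  | zero => simp [zB, u, pt_ne_zero hk]
  | succ c ih =>
    rw [zB_succ_apply, ih (by omega)]
    have h1 : pt k - red k (1, 0) = pt k + red k (-1, 0) := by
      rw [sub_eq_add_neg, ← map_neg]; simp
    rw [h1, zB_pt_line n hk (Or.inl (by norm_num)) (by simp; omega)]
    simp

/-- The product of `zB c` and its shift by `(k, k ^ 2)`. -/
def yB (c k : ℕ) : B n := zB n c * shift n (Multiplicative.ofAdd ((k : ℤ), (k : ℤ) ^ 2)) (zB n c)

theorem yB_apply (c k : ℕ) (p : L k) : yB n c k k p = zB n c k p * zB n c k (p - pt k) := rfl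

theorem yB_at_pt {c k : ℕ} (hk : 1 ≤ k) (hN : c + 1 < Nn k) : yB n c k k (pt k) = r (-1) := by
  rw [yB_apply, zB_at_pt n hk hN, sub_self, zB_at_zero n hk hN, sr_mul_sr, zero_sub]

theorem yB_pt_line {c k : ℕ} (hk : 1 ≤ k) {a : ℤ} (ha : a < 0 ∨ (c : ℤ) < a)
    (hN : |a| + c < Nn k) : yB n c k k (pt k + red k (a, 0)) = 1 := by
  rw [yB_apply, zB_pt_line n hk ha hN, add_sub_cancel_left, zB_zero_line n hk ha hN, one_mul]

/-- If `K` is a normal subgroup of `G` with `G / K` nilpotent then some `zB c` lies in `K`. -/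
theorem exists_zB_mem (K : Subgroup (G n)) [K.Normal] (h : Group.IsNilpotent (G n ⧸ K)) :
    ∃ c, (⟨SemidirectProduct.inl (zB n c), zB_mem n c⟩ : G n) ∈ K := by
  obtain ⟨c, hc⟩ := Subgroup.nilpotent_iff_lowerCentralSeries.1 h
  refine ⟨c, ?_⟩
  have h1 := Subgroup.mem_map_of_mem (QuotientGroup.mk' K) (zB_lower n c)
  rw [Subgroup.map_lowerCentralSeries] at h1
  have h2 := Subgroup.lowerCentralSeries_mono c
    (le_top : (⊤ : Subgroup (G n)).map (QuotientGroup.mk' K) ≤ ⊤) h1
  simp only [hc, Subgroup.mem_bot] at h2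
  exact (QuotientGroup.eq_one_iff _).1 h2

end Pool.Agent.V1136.Parab
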